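import Pool.Agent.Helper20.MB.St.Stubs2

/-!
# Project MB, piece 8a: the curvature in the new gauge
-/

open Filter Metric Module Set
open scoped Topology ContDiff RealInnerProductSpace Manifold

set_option maxSynthPendingDepth 3

namespace Pool.Agent.Helper85.MB
open Pool.Agent.Helper20.PC Pool.Agent.Helper20.HP Pool.Agent.Helper20.M8 Pool.Agent.Helper20.MB

section
variable {V Y : Type*} [NormedAddCommGroup V] [NormedSpace ℝ V] [NormedAddCommGroup Y]
  [NormedSpace ℝ Y]

lemma hasFDerivAt_app2 {A : V → V →L[ℝ] Y →L[ℝ] Y} {x : V} (hA : DifferentiableAt ℝ A x)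
    (v : V) {f : V → Y} {f' : V →L[ℝ] Y} (hf : HasFDerivAt f f' x) :
    HasFDerivAt (fun x' => A x' v (f x'))
      ((A x v).comp f' + ((fderiv ℝ A x).flip v).flip (f x)) x := by
  have h1 := hA.hasFDerivAt.clm_apply (hasFDerivAt_const v x)
  have h2 := h1.clm_apply hf
  refine h2.congr_fderiv ?_
  ext u
  simp

/-- The gauge transformation of the curvature, for abstract data. -/
theorem gauge_OmV {A At : V → V →L[ℝ] Y →L[ℝ] Y} {g : V → Y →L[ℝ] Y} {x : V}
    (hg : ContDiffAt ℝ 2 g x) (hA : DifferentiableAt ℝ A x) (hAt : DifferentiableAt ℝ At x)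
    (hinv : (g x).IsInvertible)
    (heq : ∀ᶠ x' in 𝓝 x, ∀ (v : V) (p : Y),
      g x' (At x' v p) = A x' v (g x' p) + fderiv ℝ g x' v p) (ζ ζ' : V) (p : Y) :
    OmV At x ζ ζ' p = (g x).inverse (OmV A x ζ ζ' (g x p)) := by
  have hgd : DifferentiableAt ℝ g x := hg.differentiableAt (by norm_num)
  have hdg : DifferentiableAt ℝ (fderiv ℝ g) x :=
    (hg.fderiv_right (m := 1) (by norm_num)).differentiableAt (by norm_num)
  have key : ∀ u v : V, g x (fderiv ℝ At x u v p) + fderiv ℝ g x u (At x v p) =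
      A x v (fderiv ℝ g x u p) + fderiv ℝ A x u v (g x p) + fderiv ℝ (fderiv ℝ g) x u v p := by
    intro u v
    have hL := hgd.hasFDerivAt.clm_apply (hasFDerivAt_app2 hAt v (hasFDerivAt_const p x))
    have hgp : HasFDerivAt (fun x' => g x' p) ((fderiv ℝ g x).flip p) x := by
      refine (hgd.hasFDerivAt.clm_apply (hasFDerivAt_const p x)).congr_fderiv ?_
      ext u
      simp
    have hR := (hasFDerivAt_app2 hA v hgp).add
      ((hdg.hasFDerivAt.clm_apply (hasFDerivAt_const v x)).clm_apply (hasFDerivAt_const p x))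
    have hE : (fun x' => g x' (At x' v p)) =ᶠ[𝓝 x]
        (fun x' => A x' v (g x' p) + fderiv ℝ g x' v p) := by
      filter_upwards [heq] with x' hx' using hx' v p
    have := hL.unique (hR.congr_of_eventuallyEq hE)
    have h2 := DFunLike.congr_fun this u
    simpa using h2
  have h0 := heq.self_of_nhds
  have hsym : fderiv ℝ (fderiv ℝ g) x ζ ζ' = fderiv ℝ (fderiv ℝ g) x ζ' ζ :=
    (hg.isSymmSndFDerivAt (by simp)) ζ ζ'
  have k1 := eq_sub_of_add_eq (key ζ ζ')
  have k2 := eq_sub_of_add_eq (key ζ' ζ)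
  symm
  rw [hinv.inverse_apply_eq]
  simp only [OmV, add_apply, sub_apply,
    ContinuousLinearMap.comp_apply, map_add, map_sub, h0, k1, k2, hsym]
  abel

end

section
variable {V Y : Type*} [NormedAddCommGroup V] [NormedSpace ℝ V] [FiniteDimensional ℝ V]
  [NormedAddCommGroup Y] [NormedSpace ℝ Y] [FiniteDimensional ℝ Y] {D : BD V Y} {x : V} {y : Y}

-- MB-8a : curvature in the new gauge (uses MB-7a)
theorem til_OmV (H : D.Good x) : ∀ᶠ x' in 𝓝 x, ∀ (ζ ζ' : V) (p : Y),
    OmV (D.til x).A x' ζ ζ' p = (gau D.A x x').inverse (OmV D.A x' ζ ζ' (gau D.A x x' p)) := by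
  obtain ⟨hinv, hi⟩ := Spec.gau_inv D.A x
  have two : (2 : WithTop ℕ∞) ≤ ∞ := WithTop.coe_le_coe.2 (le_top : (2 : ℕ∞) ≤ ⊤)
  have two' : (1 : WithTop ℕ∞) + 1 ≤ ∞ := by rw [one_add_one_eq_two]; exact two
  have hgs : ContDiff ℝ ∞ (gau D.A x) := Spec.gau_contDiff D.A x
  have hg1 : ContDiffAt ℝ 1 (gau D.A x) x := (hgs.of_le (by exact_mod_cast le_top)).contDiffAt
  have hdg1 : ContDiffAt ℝ 1 (fderiv ℝ (gau D.A x)) x :=
    (hgs.contDiffAt (x := x)).fderiv_right (m := 1) two'
  have hA1 : ContDiffAt ℝ 1 D.A x := H.hA.of_le (by exact_mod_cast le_top)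
  have hi1 : ContDiffAt ℝ 1 (fun x' => (gau D.A x x').inverse) x :=
    hi.of_le (by exact_mod_cast le_top)
  have hAt1 : ContDiffAt ℝ 1 (D.til x).A x := by
    have e1 : ContDiffAt ℝ 1 (fun x' => ContinuousLinearMap.compL ℝ Y Y Y
        (gau D.A x x').inverse) x :=
      (ContinuousLinearMap.compL ℝ Y Y Y).contDiff.contDiffAt.comp x hi1
    have e2 : ContDiffAt ℝ 1 (fun x' => (ContinuousLinearMap.compL ℝ Y Y Y).flip
        (gau D.A x x')) x :=
      (ContinuousLinearMap.compL ℝ Y Y Y).flip.contDiff.contDiffAt.comp x hg1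
    exact e1.clm_comp ((e2.clm_comp hA1).add hdg1)
  have hAtE := hAt1.eventually (by simp)
  have hAE := hA1.eventually (by simp)
  filter_upwards [hinv, hinv.eventually_nhds, hAtE, hAE] with x' h1 h2 h3 h4
  intro ζ ζ' p
  refine gauge_OmV (hgs.of_le two).contDiffAt
    (h4.differentiableAt (by norm_num)) (h3.differentiableAt (by norm_num)) h1 ?_ ζ ζ' p
  filter_upwards [h2] with x'' h5 v q
  rw [BD.til_A, h5.self_apply_inverse]

end

end Pool.Agent.Helper85.MB
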